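import Pool.Agent.H67.FS.Defs

/-!
# Flag 2-spheres in Mathlib terms (helper19)
-/

set_option autoImplicit false
set_option linter.unusedSectionVars false

open Finset

namespace Pool.Agent.H32.S2

open Pool.Agent.H73.GC (lk lk2 merge NoSq)
open Pool.Agent.H67.FS

variable {V : Type} [DecidableEq V] [Fintype V]

/-- A flag 2-sphere, as a graph: it is connected, the neighbours of every vertex induce a circuit of length at
least four, and the number of the edges is `3 |V| - 6` (the Euler characteristic is 2). -/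
structure IsSphere {W : Type} [Fintype W] (G : SimpleGraph W) : Prop where
  conn : G.Connected
  link : ∀ v, ∃ m, 4 ≤ m ∧ Nonempty (G.induce (G.neighborSet v) ≃g SimpleGraph.cycleGraph m)
  euler : G.edgeSet.ncard + 6 = 3 * Fintype.card W

/-- connectedness of an induced graph -/
private theorem pub_con {G : SimpleGraph V} {U : Finset V}
    (h : (G.induce {w | w ∈ U}).Connected) : Con G U := by
  obtain ⟨⟨a₀, ha₀⟩⟩ := h.nonempty
  refine ⟨⟨a₀, ha₀⟩, fun P hP hne hcl => subset_antisymm hP fun b hb => ?_⟩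
  obtain ⟨a, ha⟩ := hne
  have key : ∀ x y : {w | w ∈ U}, (G.induce {w | w ∈ U}).Reachable x y → x.1 ∈ P → y.1 ∈ P := by
    rintro x y ⟨p⟩
    induction p with
    | nil => exact id
    | cons hadj _ ih => exact fun hx => ih (hcl _ hx _ (Subtype.prop _) hadj)
  exact key ⟨a, hP ha⟩ ⟨b, hb⟩ (h.preconnected _ _) ha

private theorem pub_cyc {G : SimpleGraph V} {U : Finset V} {m : ℕ} (hm : 4 ≤ m)
    (e : G.induce {w | w ∈ U} ≃g SimpleGraph.cycleGraph m) : Cyc G U := by
  classical
  have hcard : U.card = m := by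
    have h1 := Fintype.card_congr e.toEquiv
    rw [Fintype.card_fin] at h1
    rw [← h1, ← Fintype.card_coe]
    exact Fintype.card_congr (Equiv.refl _)
  obtain ⟨k, rfl⟩ : ∃ k, m = k + 3 := ⟨m - 3, by omega⟩
  refine ⟨pub_con (e.connected_iff.2 SimpleGraph.cycleGraph_connected), fun a ha => ?_,
    by omega⟩
  have h1 : (SimpleGraph.cycleGraph (k + 3)).degree (e ⟨a, ha⟩) = 2 :=
    SimpleGraph.cycleGraph_degree_three_le
  rw [← h1, ← SimpleGraph.card_neighborFinset_eq_degree]
  refine card_bij' (fun w hw => e ⟨w, (mem_lk.1 hw).1⟩) (fun t _ => (e.symm t).1) ?_ ?_ ?_ ?_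
  · intro w hw
    rw [SimpleGraph.mem_neighborFinset, e.map_adj_iff]
    exact (mem_lk.1 hw).2
  · intro t ht
    rw [SimpleGraph.mem_neighborFinset] at ht
    refine mem_lk.2 ⟨(e.symm t).2, ?_⟩
    have h2 : (G.induce {w | w ∈ U}).Adj ⟨a, ha⟩ (e.symm t) := by
      rw [← e.map_adj_iff, e.apply_symm_apply]
      exact ht
    exact h2
  · intro w hw
    simp
  · intro t ht
    simp

theorem IsSphere.fs {G : SimpleGraph V} (h : IsSphere G) : FS G univ := by
  classical
  have hlk : ∀ v w, w ∈ lk G univ v ↔ w ∈ G.neighborSet v := fun v w => by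
    rw [mem_lk, SimpleGraph.mem_neighborSet]
    exact and_iff_right (mem_univ _)
  refine ⟨⟨⟨?_, ?_⟩, fun v _ => ?_⟩, ?_⟩
  · obtain ⟨v⟩ := h.conn.nonempty
    exact ⟨v, mem_univ _⟩
  · intro P _ hne hcl
    obtain ⟨a, ha⟩ := hne
    have key : ∀ x y : V, G.Reachable x y → x ∈ P → y ∈ P := by
      rintro x y ⟨p⟩
      induction p with
      | nil => exact id
      | cons hadj _ ih => exact fun hx => ih (hcl _ hx _ (mem_univ _) hadj)
    exact eq_univ_of_forall fun b => key a b (h.conn.preconnected _ _) ha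
  · obtain ⟨m, hm, ⟨e⟩⟩ := h.link v
    have hset : {w | w ∈ lk G univ v} = G.neighborSet v := by
      ext w
      exact hlk v w
    refine pub_cyc hm ?_
    rw [hset]
    exact e
  · have h1 : ∀ v ∈ (univ : Finset V), (lk G univ v).card = G.degree v := fun v _ => by
      rw [← SimpleGraph.card_neighborFinset_eq_degree]
      congr 1
      ext w
      rw [hlk, SimpleGraph.mem_neighborFinset, SimpleGraph.mem_neighborSet]
    have h2 : G.edgeSet.ncard = #G.edgeFinset := by
      rw [← SimpleGraph.coe_edgeFinset, Set.ncard_coe_finset]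
    rw [sum_congr rfl h1, SimpleGraph.sum_degrees_eq_twice_card_edges, ← h2, card_univ]
    have h3 := h.euler
    omega

end Pool.Agent.H32.S2
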