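import Pool.Agent.H32.S2.Ind
import Pool.Agent.H67.FS.Sub

/-!
# Flag 2-spheres: growth
-/

set_option autoImplicit false
set_option linter.unusedSectionVars false

open Finset

namespace Pool.Agent.H32.S2

open Pool.Agent.H73.GC (lk lk2 merge NoSq Good)
open Pool.Agent.H67.FS

variable {V : Type} [DecidableEq V] [Fintype V]

/-- the growth of a flag 2-sphere vanishes in the degrees at least one -/
theorem fs_good_one {G : SimpleGraph V} {U : Finset V} (h : FS G U) : Good G U 1 := by
  refine fs_ind (P := fun G U => Good G U 1) ?_ ?_ ?_ h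
  · intro G U a b ha hb hab hn h
    exact Good.le _ _ 0 1 (by omega) (Good.susp G U a b ha hb hab hn h)
  · intro G U x u z w _ hx hu hxu hN _ _ hzw hn hl _ h1
    refine Good.ident G U x u 0 hx hu hxu.ne hN h1 ?_
    rw [hl]
    refine Good.susp G {z, w} z w (by simp) (by simp) hzw hn ?_
    intro t ht h1 h2
    rw [mem_insert, mem_singleton] at ht
    tauto
  · intro G G₁ G₂ A B k l _ hk hl hno h1 h2 h3 h4 _ _ h5 h6
    exact Good.glue G G₁ G₂ A B k l 1 hk hl hno h1 h2 h3 h4 h5 h6

theorem fs_good {G : SimpleGraph V} {U : Finset V} (h : FS G U) : Good G U 2 :=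
  Good.le _ _ 1 2 (by omega) (fs_good_one h)

/-- full subcomplexes -/
theorem fs_good_sub {G : SimpleGraph V} {U A : Finset V} (h : FS G U) (hA : A ⊆ U) : Good G A 2 :=
  good_sub h.surf (fs_good h) hA

end Pool.Agent.H32.S2
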