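import Pool.Agent.H49.FS.Contr

/-!
# Contraction of an edge in no induced 4-circuit (helper49)
-/

set_option autoImplicit false
set_option linter.unusedSectionVars false

open Finset

namespace Pool.Agent.H32.S2

open Pool.Agent.H73.GC (lk lk2 merge NoSq)
open Pool.Agent.H67.FS

variable {V : Type} [DecidableEq V] [Fintype V]

theorem fs_merge {G : SimpleGraph V} {U : Finset V} (h : FS G U) {x u : V} (hx : x ∈ U)
    (hu : u ∈ U) (hxu : G.Adj x u) (hN : NoSq G U x u) : FS (merge G x u) (U.erase x) :=
  Pool.Agent.H49.FS.fs_merge h hx hu hxu hN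

end Pool.Agent.H32.S2
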