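import Pool.Agent.H32.S2.CutL

/-!
# Cutting along an induced 4-circuit: the link of a vertex of the circuit

Degrees: an element of `lk G A a` has the same neighbours in the link as in `lk G U a`; `b` has one neighbour in
`A` (from `e1`) and `k`, `d` also (from `e4`), `k` has `b` and `d`. Connected: let `S` be closed. If `k ∈ S`, then
`b, d ∈ S`, and `S` without `k` together with `lk G B a` is closed in `lk G U a`. If `k ∉ S`, then `b, d ∉ S`
and `S` is closed in `lk G U a`. Four elements: `k`, `b`, `d` and the element of `A` in `e1`.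
-/

set_option autoImplicit false
set_option linter.unusedSectionVars false

open Finset

namespace Pool.Agent.H32.S2

open Pool.Agent.H73.GC (lk lk2 merge NoSq)
open Pool.Agent.H67.FS

variable {V : Type} [DecidableEq V] [Fintype V]

/-- the link of `a` in `U` -/
private theorem mem_Z {G : SimpleGraph V} {U : Finset V} {a b c d : V} {A B : Finset V}
    (h : Cut G U a b c d A B) (w : V) :
    w ∈ lk G U a ↔ w ∈ lk G A a ∨ w ∈ lk G B a ∨ w = b ∨ w = d := by
  rw [mem_lk, mem_lk, mem_lk, h.union]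
  constructor
  · rintro ⟨h1 | h1 | rfl | rfl | rfl | rfl, h2⟩
    · exact Or.inl ⟨h1, h2⟩
    · exact Or.inr (Or.inl ⟨h1, h2⟩)
    · exact absurd rfl h2.ne
    · exact Or.inr (Or.inr (Or.inl rfl))
    · exact absurd h2 h.sq.ac
    · exact Or.inr (Or.inr (Or.inr rfl))
  · rintro (⟨h1, h2⟩ | ⟨h1, h2⟩ | rfl | rfl)
    · exact ⟨Or.inl h1, h2⟩
    · exact ⟨Or.inr (Or.inl h1), h2⟩
    · exact ⟨by simp, h.sq.ab⟩
    · exact ⟨by simp, h.sq.da.symm⟩

theorem Cut.cyc_corner {G : SimpleGraph V} {U : Finset V} {a b c d k : V} {A B : Finset V}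
    (h : Cut G U a b c d A B) (hs : Surf G U) (hk : k ∈ B) :
    Cyc (coneG G {a, b, c, d} k) (insert k (insert b (insert d (lk G A a)))) := by
  have hZ := hs.cyc a h.sq.ha
  obtain ⟨hkA, hkC⟩ := h.k_notMem hk
  have hbk : b ≠ k := fun h1 => h.nB.2.1 (h1 ▸ hk)
  have hdk : d ≠ k := fun h1 => h.nB.2.2.2 (h1 ▸ hk)
  have hAk : ∀ v ∈ A, v ≠ k := fun v hv h1 => hkA (h1 ▸ hv)
  have hL : ∀ w, w ∈ insert k (insert b (insert d (lk G A a))) ↔
      w = k ∨ w = b ∨ w = d ∨ w ∈ lk G A a := fun w => by
    rw [mem_insert, mem_insert, mem_insert]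
  have hkb : (coneG G {a, b, c, d} k).Adj k b := (coneG_adj_k hkC).2 (by simp)
  have hkd : (coneG G {a, b, c, d} k).Adj k d := (coneG_adj_k hkC).2 (by simp)
  have hkA' : ∀ v ∈ A, ¬ (coneG G {a, b, c, d} k).Adj k v := fun v hv h1 =>
    h.side_notMem hv ((coneG_adj_k hkC).1 h1)
  have key : ∀ {p : V}, (∃ y ∈ A, ∃ z ∈ B, lk2 G U a p = {y, z}) → ∃ y ∈ A, G.Adj a y ∧ G.Adj p y ∧
      ∀ w ∈ A, G.Adj a w → G.Adj p w → w = y := by
    rintro p ⟨y, hy, z, hz, h1⟩
    have h2 : y ∈ lk2 G U a p := by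
      rw [h1]
      exact mem_insert_self _ _
    rw [mem_lk2] at h2
    refine ⟨y, hy, h2.2.1, h2.2.2, fun w hw h3 h4 => ?_⟩
    have h5 : w ∈ lk2 G U a p := mem_lk2.2 ⟨(h.union w).2 (Or.inl hw), h3, h4⟩
    rw [h1, mem_insert, mem_singleton] at h5
    rcases h5 with h5 | rfl
    · exact h5
    · exact absurd hz (h.disj w hw)
  obtain ⟨y, hyA, hay, hby, hyu⟩ := key h.e1
  obtain ⟨y', hyA', hay', hdy', hyu'⟩ := key (p := d) (by
    obtain ⟨u, hu, z, hz, h1⟩ := h.e4
    exact ⟨u, hu, z, hz, by rw [lk2_comm]; exact h1⟩)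
  refine ⟨⟨⟨k, mem_insert_self _ _⟩, fun P hP hne hcl => ?_⟩, ?_, ?_⟩
  · by_cases hkP : k ∈ P
    · have hbP : b ∈ P := hcl k hkP b ((hL b).2 (by simp)) hkb
      have hdP : d ∈ P := hcl k hkP d ((hL d).2 (by simp)) hkd
      have h1 := hZ.con.2 (P.erase k ∪ lk G B a) (by
          intro x hx
          rw [mem_Z h]
          rcases mem_union.1 hx with h2 | h2
          · have h3 := (hL x).1 (hP (mem_of_mem_erase h2))
            have h4 := (mem_erase.1 h2).1
            tauto
          · exact Or.inr (Or.inl h2))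
        ⟨b, mem_union_left _ (mem_erase.2 ⟨hbk, hbP⟩)⟩ (by
          intro x hx z hz hxz
          rcases (mem_Z h z).1 hz with h2 | h2 | rfl | rfl
          · have hzA : z ∈ A := (mem_lk.1 h2).1
            rcases mem_union.1 hx with h3 | h3
            · have hxk := (mem_erase.1 h3).1
              refine mem_union_left _ (mem_erase.2 ⟨hAk z hzA, ?_⟩)
              exact hcl x (mem_of_mem_erase h3) z ((hL z).2 (Or.inr (Or.inr (Or.inr h2))))
                ((coneG_adj hxk (hAk z hzA)).2 hxz)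
            · exact absurd hxz.symm (h.no z hzA x (mem_lk.1 h3).1)
          · exact mem_union_right _ h2
          · exact mem_union_left _ (mem_erase.2 ⟨hbk, hbP⟩)
          · exact mem_union_left _ (mem_erase.2 ⟨hdk, hdP⟩))
      refine subset_antisymm hP fun w hw => ?_
      rcases (hL w).1 hw with rfl | rfl | rfl | h2
      · exact hkP
      · exact hbP
      · exact hdP
      · have h3 : w ∈ lk G U a := (mem_Z h w).2 (Or.inl h2)
        rw [← h1] at h3
        rcases mem_union.1 h3 with h4 | h4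
        · exact mem_of_mem_erase h4
        · exact absurd (mem_lk.1 h4).1 (h.disj w (mem_lk.1 h2).1)
    · have hkL : k ∈ insert k (insert b (insert d (lk G A a))) := mem_insert_self _ _
      have hbP : b ∉ P := fun h1 => hkP (hcl b h1 k hkL hkb.symm)
      have hdP : d ∉ P := fun h1 => hkP (hcl d h1 k hkL hkd.symm)
      have hPA : ∀ x ∈ P, x ∈ lk G A a := fun x hx => by
        rcases (hL x).1 (hP hx) with rfl | rfl | rfl | h2
        · exact absurd hx hkP
        · exact absurd hx hbP
        · exact absurd hx hdP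
        · exact h2
      have h1 := hZ.con.2 P (fun x hx => (mem_Z h x).2 (Or.inl (hPA x hx))) hne (by
        intro x hx z hz hxz
        have hxA : x ∈ A := (mem_lk.1 (hPA x hx)).1
        rcases (mem_Z h z).1 hz with h2 | h2 | rfl | rfl
        · exact hcl x hx z ((hL z).2 (Or.inr (Or.inr (Or.inr h2))))
            ((coneG_adj (hAk x hxA) (hAk z (mem_lk.1 h2).1)).2 hxz)
        · exact absurd hxz (h.no x hxA z (mem_lk.1 h2).1)
        · exact hcl x hx z ((hL z).2 (by simp)) ((coneG_adj (hAk x hxA) hbk).2 hxz)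
        · exact hcl x hx z ((hL z).2 (by simp)) ((coneG_adj (hAk x hxA) hdk).2 hxz))
      exact absurd (h1 ▸ (mem_Z h b).2 (Or.inr (Or.inr (Or.inl rfl)))) hbP
  · have side : ∀ {p q y : V}, p ≠ k → q ≠ k → ¬ G.Adj p q → y ∈ A → G.Adj a y → G.Adj p y →
        (coneG G {a, b, c, d} k).Adj k p →
        (∀ w ∈ A, G.Adj a w → G.Adj p w → w = y) → (∀ w, w ∈ insert k (insert b (insert d (lk G A a))) ↔
          w = k ∨ w = p ∨ w = q ∨ w ∈ lk G A a) →
        (lk (coneG G {a, b, c, d} k) (insert k (insert b (insert d (lk G A a)))) p).card = 2 := by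
      intro p q y hpk hqk hpq hy hay hpy hkp hu hLp
      have e : lk (coneG G {a, b, c, d} k) (insert k (insert b (insert d (lk G A a)))) p = {k, y} := by
        ext w
        rw [mem_lk, hLp, mem_insert, mem_singleton]
        constructor
        · rintro ⟨rfl | rfl | rfl | h2, h3⟩
          · exact Or.inl rfl
          · exact absurd rfl h3.ne
          · exact absurd ((coneG_adj hpk hqk).1 h3) hpq
          · rw [mem_lk] at h2
            exact Or.inr (hu w h2.1 h2.2 ((coneG_adj hpk (hAk w h2.1)).1 h3))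
        · rintro (rfl | rfl)
          · exact ⟨Or.inl rfl, hkp.symm⟩
          · exact ⟨Or.inr (Or.inr (Or.inr (mem_lk.2 ⟨hy, hay⟩))), (coneG_adj hpk (hAk w hy)).2 hpy⟩
      rw [e, card_pair (hAk y hy).symm]
    intro v hv
    rcases (hL v).1 hv with rfl | rfl | rfl | h2
    · have e : lk (coneG G {a, b, c, d} v) (insert v (insert b (insert d (lk G A a)))) v = {b, d} := by
        ext w
        rw [mem_lk, hL, mem_insert, mem_singleton]
        constructor
        · rintro ⟨rfl | rfl | rfl | h2, h3⟩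
          · exact absurd rfl h3.ne
          · exact Or.inl rfl
          · exact Or.inr rfl
          · exact absurd h3 (hkA' w (mem_lk.1 h2).1)
        · rintro (rfl | rfl)
          · exact ⟨by simp, hkb⟩
          · exact ⟨by simp, hkd⟩
      rw [e, card_pair h.sq.nbd]
    · exact side hbk hdk h.sq.bd hyA hay hby hkb hyu hL
    · exact side hdk hbk (fun h3 => h.sq.bd h3.symm) hyA' hay' hdy' hkd hyu' (fun w => by
        rw [hL]
        tauto)
    · have hvA : v ∈ A := (mem_lk.1 h2).1
      have e : lk (coneG G {a, b, c, d} k) (insert k (insert b (insert d (lk G A a)))) v =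
          lk G (lk G U a) v := by
        ext w
        rw [mem_lk, mem_lk, hL, mem_Z h]
        constructor
        · rintro ⟨rfl | rfl | rfl | h3, h4⟩
          · exact absurd h4.symm (hkA' v hvA)
          · exact ⟨by simp, (coneG_adj (hAk v hvA) hbk).1 h4⟩
          · exact ⟨by simp, (coneG_adj (hAk v hvA) hdk).1 h4⟩
          · exact ⟨Or.inl h3, (coneG_adj (hAk v hvA) (hAk w (mem_lk.1 h3).1)).1 h4⟩
        · rintro ⟨h3 | h3 | rfl | rfl, h4⟩
          · exact ⟨Or.inr (Or.inr (Or.inr h3)), (coneG_adj (hAk v hvA) (hAk w (mem_lk.1 h3).1)).2 h4⟩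
          · exact absurd h4 (h.no v hvA w (mem_lk.1 h3).1)
          · exact ⟨by simp, (coneG_adj (hAk v hvA) hbk).2 h4⟩
          · exact ⟨by simp, (coneG_adj (hAk v hvA) hdk).2 h4⟩
      rw [e]
      exact hZ.two v ((mem_Z h v).2 (Or.inl h2))
  · have h1 : d ∉ lk G A a := fun h2 => h.nA.2.2.2 (mem_lk.1 h2).1
    have h2 : b ∉ insert d (lk G A a) := by
      rw [mem_insert]
      rintro (h3 | h3)
      · exact h.sq.nbd h3
      · exact h.nA.2.1 (mem_lk.1 h3).1
    have h3 : k ∉ insert b (insert d (lk G A a)) := by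
      rw [mem_insert, mem_insert]
      rintro (h4 | h4 | h4)
      · exact hbk h4.symm
      · exact hdk h4.symm
      · exact hkA (mem_lk.1 h4).1
    rw [card_insert_of_notMem h3, card_insert_of_notMem h2, card_insert_of_notMem h1]
    have h4 : 0 < (lk G A a).card := card_pos.2 ⟨y, mem_lk.2 ⟨hyA, hay⟩⟩
    omega

end Pool.Agent.H32.S2
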