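import Pool.Agent.H32.S2.CutL

/-!
# Cutting along an induced 4-circuit: the sum of the degrees

`Cut.lk_side`, `Cut.lk_cone`, `Cut.lk_corner` (with `Cut.rot` for the other vertices of the circuit and
`Cut.swap` for the other side; `rot_set`). For the vertex `a`: `lk G U a` is the disjoint union of `lk G A a`,
`lk G B a` and `{b, d}`.
-/

set_option autoImplicit false
set_option linter.unusedSectionVars false

open Finset

namespace Pool.Agent.H32.S2

open Pool.Agent.H73.GC (lk lk2 merge NoSq)
open Pool.Agent.H67.FS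

variable {V : Type} [DecidableEq V] [Fintype V]

/-- the link of a vertex of the circuit in the piece has three more vertices -/
theorem Cut.card_corner {G : SimpleGraph V} {U : Finset V} {a b c d k : V} {A B : Finset V}
    (h : Cut G U a b c d A B) (hk : k ∈ B) :
    (insert k (insert b (insert d (lk G A a)))).card = (lk G A a).card + 3 := by
  have hk' := h.k_notMem hk
  have h1 : d ∉ lk G A a := fun h1 => h.nA.2.2.2 (mem_lk.1 h1).1
  have h2 : b ∉ insert d (lk G A a) := by
    rw [mem_insert]
    rintro (h2 | h2)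
    · exact h.sq.nbd h2
    · exact h.nA.2.1 (mem_lk.1 h2).1
  have h3 : k ∉ insert b (insert d (lk G A a)) := by
    rw [mem_insert, mem_insert]
    rintro (h3 | h3 | h3)
    · exact h.nB.2.1 (h3 ▸ hk)
    · exact h.nB.2.2.2 (h3 ▸ hk)
    · exact hk'.1 (mem_lk.1 h3).1
  rw [card_insert_of_notMem h3, card_insert_of_notMem h2, card_insert_of_notMem h1]

/-- the degree of a vertex of the circuit -/
theorem Cut.deg_corner {G : SimpleGraph V} {U : Finset V} {a b c d k l : V} {A B : Finset V}
    (h : Cut G U a b c d A B) (hk : k ∈ B) (hl : l ∈ A) :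
    (lk (coneG G {a, b, c, d} k) (insert k (A ∪ {a, b, c, d})) a).card +
      (lk (coneG G {a, b, c, d} l) (insert l (B ∪ {a, b, c, d})) a).card = (lk G U a).card + 4 := by
  rw [h.lk_corner hk, h.swap.lk_corner hl, h.card_corner hk, h.swap.card_corner hl]
  have h1 : lk G U a = (lk G A a ∪ lk G B a) ∪ {b, d} := by
    ext w
    rw [mem_union, mem_union, mem_lk, mem_lk, mem_lk, mem_insert, mem_singleton]
    constructor
    · rintro ⟨h1, h2⟩
      rw [h.union] at h1
      rcases h1 with h1 | h1 | rfl | rfl | rfl | rfl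
      · exact Or.inl (Or.inl ⟨h1, h2⟩)
      · exact Or.inl (Or.inr ⟨h1, h2⟩)
      · exact absurd rfl h2.ne
      · exact Or.inr (Or.inl rfl)
      · exact absurd h2 h.sq.ac
      · exact Or.inr (Or.inr rfl)
    · rintro ((⟨h1, h2⟩ | ⟨h1, h2⟩) | rfl | rfl)
      · exact ⟨(h.union w).2 (Or.inl h1), h2⟩
      · exact ⟨(h.union w).2 (Or.inr (Or.inl h1)), h2⟩
      · exact ⟨h.sq.hb, h.sq.ab⟩
      · exact ⟨h.sq.hd, h.sq.da.symm⟩
  rw [h1, card_union_of_disjoint, card_union_of_disjoint, card_pair h.sq.nbd]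
  · omega
  · rw [disjoint_left]
    exact fun x hx hx' => h.disj x (mem_lk.1 hx).1 (mem_lk.1 hx').1
  · rw [disjoint_left]
    intro x hx hx'
    rw [mem_insert, mem_singleton] at hx'
    rw [mem_union, mem_lk, mem_lk] at hx
    rcases hx' with rfl | rfl
    · rcases hx with hx | hx
      · exact h.nA.2.1 hx.1
      · exact h.nB.2.1 hx.1
    · rcases hx with hx | hx
      · exact h.nA.2.2.2 hx.1
      · exact h.nB.2.2.2 hx.1

theorem Sq.sum {G : SimpleGraph V} {U : Finset V} {a b c d : V} (h : Sq G U a b c d) (f : V → ℕ) :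
    ∑ v ∈ ({a, b, c, d} : Finset V), f v = f a + f b + f c + f d := by
  have h1 : a ∉ ({b, c, d} : Finset V) := by
    simp only [mem_insert, mem_singleton]
    rintro (h1 | h1 | h1)
    · exact h.ab.ne h1
    · exact h.nac h1
    · exact h.da.ne h1.symm
  have h2 : b ∉ ({c, d} : Finset V) := by
    simp only [mem_insert, mem_singleton]
    rintro (h1 | h1)
    · exact h.bc.ne h1
    · exact h.nbd h1
  rw [sum_insert h1, sum_insert h2, sum_pair h.cd.ne]
  ring

/-- the sum of the degrees of a piece -/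
theorem Cut.deg_piece {G : SimpleGraph V} {U : Finset V} {a b c d k : V} {A B : Finset V}
    (h : Cut G U a b c d A B) (hk : k ∈ B) :
    ∑ v ∈ insert k (A ∪ {a, b, c, d}),
        (lk (coneG G {a, b, c, d} k) (insert k (A ∪ {a, b, c, d})) v).card =
      4 + ∑ v ∈ A, (lk G U v).card + ∑ v ∈ ({a, b, c, d} : Finset V),
        (lk (coneG G {a, b, c, d} k) (insert k (A ∪ {a, b, c, d})) v).card := by
  have hk' := h.k_notMem hk
  rw [sum_insert, sum_union, h.lk_cone hk, add_assoc]
  · congr 1
    · have h4 := h.sq.sum fun _ => 1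
      rwa [sum_const, smul_eq_mul, mul_one] at h4
    · congr 1
      exact sum_congr rfl fun v hv => by rw [h.lk_side hk hv]
  · rw [disjoint_left]
    exact fun x hx => h.side_notMem hx
  · rw [mem_union]
    exact fun h1 => h1.elim hk'.1 hk'.2

/-- the sum of the degrees -/
theorem Cut.deg {G : SimpleGraph V} {U : Finset V} {a b c d k l : V} {A B : Finset V}
    (h : Cut G U a b c d A B) (hk : k ∈ B) (hl : l ∈ A) :
    ∑ v ∈ insert k (A ∪ {a, b, c, d}),
        (lk (coneG G {a, b, c, d} k) (insert k (A ∪ {a, b, c, d})) v).card +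
      ∑ v ∈ insert l (B ∪ {a, b, c, d}),
        (lk (coneG G {a, b, c, d} l) (insert l (B ∪ {a, b, c, d})) v).card =
      ∑ v ∈ U, (lk G U v).card + 24 := by
  have hU : U = (A ∪ B) ∪ {a, b, c, d} := by
    ext v
    rw [h.union v, mem_union, mem_union]
    simp only [mem_insert, mem_singleton]
    tauto
  have h1 : ∑ v ∈ U, (lk G U v).card = ∑ v ∈ A, (lk G U v).card + ∑ v ∈ B, (lk G U v).card +
      ∑ v ∈ ({a, b, c, d} : Finset V), (lk G U v).card := by
    have h2 : ∑ v ∈ U, (lk G U v).card = ∑ v ∈ (A ∪ B) ∪ {a, b, c, d}, (lk G U v).card := by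
      rw [← hU]
    rw [h2, sum_union, sum_union]
    · rw [disjoint_left]
      exact h.disj
    · rw [disjoint_left]
      intro x hx
      rcases mem_union.1 hx with h1 | h1
      · exact h.side_notMem h1
      · exact h.swap.side_notMem h1
  have ha := h.deg_corner hk hl
  have hb := h.rot.deg_corner hk hl
  have hc := h.rot.rot.deg_corner hk hl
  have hd := h.rot.rot.rot.deg_corner hk hl
  rw [rot_set] at hb
  rw [rot_set, rot_set] at hc
  rw [rot_set, rot_set, rot_set] at hd
  rw [h.deg_piece hk, h.swap.deg_piece hl, h1, h.sq.sum, h.sq.sum, h.sq.sum]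
  omega

end Pool.Agent.H32.S2
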