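import Pool.Agent.H32.S2.CutC
import Pool.Agent.H32.S2.CutD
import Pool.Agent.H67.FS.Rank

/-!
# Cutting along an induced 4-circuit: the pieces are flag 2-spheres
-/

set_option autoImplicit false
set_option linter.unusedSectionVars false

open Finset

namespace Pool.Agent.H32.S2

open Pool.Agent.H73.GC (lk lk2 merge NoSq)
open Pool.Agent.H67.FS

variable {V : Type} [DecidableEq V] [Fintype V]

/-- connected: let `S` be closed. If `k ∈ S`, then `S` without `k` together with `B` is closed in `U`. If `k ∉ S`,
then `S ⊆ A` and `S` is closed in `U`. -/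
theorem Cut.con {G : SimpleGraph V} {U : Finset V} {a b c d k : V} {A B : Finset V}
    (h : Cut G U a b c d A B) (hs : Surf G U) (hk : k ∈ B) :
    Con (coneG G {a, b, c, d} k) (insert k (A ∪ {a, b, c, d})) := by
  have hk' := h.k_notMem hk
  have hu : ∀ v, v ∈ U ↔ v ∈ A ∨ v ∈ B ∨ v ∈ ({a, b, c, d} : Finset V) := by
    intro v
    rw [h.union v]
    simp only [mem_insert, mem_singleton]
  refine ⟨⟨k, mem_insert_self _ _⟩, fun S hS hne hcl => ?_⟩
  by_cases hkS : k ∈ S
  · have hC : ∀ w ∈ ({a, b, c, d} : Finset V), w ∈ S := fun w hw =>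
      hcl k hkS w (mem_insert_of_mem (mem_union_right _ hw)) ((coneG_adj_k hk'.2).2 hw)
    have h1 : S.erase k ∪ B = U := by
      refine hs.con.2 _ ?_ ⟨k, mem_union_right _ hk⟩ ?_
      · intro x hx
        rw [hu]
        rcases mem_union.1 hx with h2 | h2
        · rw [mem_erase] at h2
          have h3 := hS h2.2
          rw [mem_insert, mem_union] at h3
          tauto
        · exact Or.inr (Or.inl h2)
      · intro x hx y hy hxy
        rw [hu] at hy
        rcases hy with hy | hy | hy
        · rcases mem_union.1 hx with h2 | h2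
          · rw [mem_erase] at h2
            have hyk : y ≠ k := by
              rintro rfl
              exact hk'.1 hy
            exact mem_union_left _ (mem_erase.2 ⟨hyk, hcl x h2.2 y
              (mem_insert_of_mem (mem_union_left _ hy)) ((coneG_adj h2.1 hyk).2 hxy)⟩)
          · exact absurd hxy.symm (h.no y hy x h2)
        · exact mem_union_right _ hy
        · have hyk : y ≠ k := by
            rintro rfl
            exact hk'.2 hy
          exact mem_union_left _ (mem_erase.2 ⟨hyk, hC y hy⟩)
    refine subset_antisymm hS fun x hx => ?_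
    rw [mem_insert, mem_union] at hx
    rcases hx with rfl | hx | hx
    · exact hkS
    · have h2 : x ∈ S.erase k ∪ B := by
        rw [h1, hu]
        exact Or.inl hx
      rcases mem_union.1 h2 with h3 | h3
      · exact (mem_erase.1 h3).2
      · exact absurd h3 (h.disj x hx)
    · exact hC x hx
  · have hC : ∀ w ∈ ({a, b, c, d} : Finset V), w ∉ S := fun w hw hwS =>
      hkS (hcl w hwS k (mem_insert_self _ _) ((coneG_adj_k hk'.2).2 hw).symm)
    have hSA : ∀ x ∈ S, x ∈ A := by
      intro x hx
      have h2 := hS hx
      rw [mem_insert, mem_union] at h2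
      rcases h2 with rfl | h2 | h2
      · exact absurd hx hkS
      · exact h2
      · exact absurd hx (hC x h2)
    have h1 : S = U := by
      refine hs.con.2 _ (fun x hx => (hu x).2 (Or.inl (hSA x hx))) hne ?_
      intro x hx y hy hxy
      rw [hu] at hy
      have hxk : x ≠ k := by
        rintro rfl
        exact hkS hx
      have h3 : y ∈ A ∪ ({a, b, c, d} : Finset V) := by
        rcases hy with hy | hy | hy
        · exact mem_union_left _ hy
        · exact absurd hxy (h.no x (hSA x hx) y hy)
        · exact mem_union_right _ hy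
      have hyk : y ≠ k := by
        rintro rfl
        exact (mem_union.1 h3).elim hk'.1 hk'.2
      exact hcl x hx y (mem_insert_of_mem h3) ((coneG_adj hxk hyk).2 hxy)
    exact absurd (h1 ▸ h.sq.ha) (hC a (by simp))

theorem Cut.surf {G : SimpleGraph V} {U : Finset V} {a b c d k : V} {A B : Finset V}
    (h : Cut G U a b c d A B) (hs : Surf G U) (hk : k ∈ B) :
    Surf (coneG G {a, b, c, d} k) (insert k (A ∪ {a, b, c, d})) := by
  have hk' := h.k_notMem hk
  have key : ∀ {a b c d : V}, Cut G U a b c d A B →
      Cyc (coneG G {a, b, c, d} k)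
        (lk (coneG G {a, b, c, d} k) (insert k (A ∪ {a, b, c, d})) a) := by
    intro a b c d h
    rw [h.lk_corner hk]
    exact h.cyc_corner hs hk
  refine ⟨h.con hs hk, fun v hv => ?_⟩
  rw [mem_insert, mem_union] at hv
  rcases hv with rfl | hv | hv
  · rw [h.lk_cone hk]
    have h1 : ∀ x, x ∈ ({a, b, c, d} : Finset V) → x ≠ v := by
      rintro x hx rfl
      exact hk'.2 hx
    exact h.sq.cyc.congr fun x hx y hy => (coneG_adj (h1 x hx) (h1 y hy)).symm
  · rw [h.lk_side hk hv]
    refine (hs.cyc v ((h.union v).2 (Or.inl hv))).congr fun x hx y hy => ?_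
    have h1 : ∀ x, x ∈ lk G U v → x ≠ k := by
      rintro x hx rfl
      exact h.no v hv x hk (mem_lk.1 hx).2
    rw [coneG_adj (h1 x hx) (h1 y hy)]
  · simp only [mem_insert, mem_singleton] at hv
    rcases hv with rfl | rfl | rfl | rfl
    · exact key h
    · have := key h.rot
      rwa [rot_set] at this
    · have := key h.rot.rot
      rwa [rot_set, rot_set] at this
    · have := key h.rot.rot.rot
      rwa [rot_set, rot_set, rot_set] at this

/-- the numbers of the vertices -/
theorem Cut.card {G : SimpleGraph V} {U : Finset V} {a b c d k l : V} {A B : Finset V}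
    (h : Cut G U a b c d A B) (hk : k ∈ B) (hl : l ∈ A) :
    (insert k (A ∪ {a, b, c, d})).card = A.card + 5 ∧
      (insert l (B ∪ {a, b, c, d})).card = B.card + 5 ∧ U.card = A.card + B.card + 4 := by
  have h4 : ({a, b, c, d} : Finset V).card = 4 := by
    have h1 : a ∉ ({b, c, d} : Finset V) := by
      simp only [mem_insert, mem_singleton]
      rintro (h1 | h1 | h1)
      · exact h.sq.ab.ne h1
      · exact h.sq.nac h1
      · exact h.sq.da.ne h1.symm
    have h2 : b ∉ ({c, d} : Finset V) := by
      simp only [mem_insert, mem_singleton]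
      rintro (h1 | h1)
      · exact h.sq.bc.ne h1
      · exact h.sq.nbd h1
    rw [card_insert_of_notMem h1, card_insert_of_notMem h2, card_pair h.sq.cd.ne]
  have key : ∀ {A B : Finset V} {k : V}, Cut G U a b c d A B → k ∈ B →
      (insert k (A ∪ {a, b, c, d})).card = A.card + 5 := by
    intro A B k h hk
    have hk' := h.k_notMem hk
    rw [card_insert_of_notMem, card_union_of_disjoint, h4]
    · rw [disjoint_left]
      exact fun x hx => h.side_notMem hx
    · rw [mem_union]
      exact fun h1 => h1.elim hk'.1 hk'.2
  refine ⟨key h hk, key h.swap hl, ?_⟩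
  have h5 : U = (A ∪ B) ∪ {a, b, c, d} := by
    ext v
    rw [h.union v, mem_union, mem_union]
    simp only [mem_insert, mem_singleton]
    tauto
  rw [h5, card_union_of_disjoint, card_union_of_disjoint, h4]
  · rw [disjoint_left]
    exact h.disj
  · rw [disjoint_left]
    intro x hx
    rcases mem_union.1 hx with h1 | h1
    · exact h.side_notMem h1
    · exact h.swap.side_notMem h1

/-- from `Cut.deg` and `surf_le` for both pieces -/
theorem Cut.fs {G : SimpleGraph V} {U : Finset V} {a b c d k l : V} {A B : Finset V}
    (h : Cut G U a b c d A B) (hs : FS G U) (hk : k ∈ B) (hl : l ∈ A) :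
    FS (coneG G {a, b, c, d} k) (insert k (A ∪ {a, b, c, d})) := by
  have h1 := h.surf hs.surf hk
  have h2 := h.swap.surf hs.surf hl
  have h3 := surf_le h1
  have h4 := surf_le h2
  have h5 := h.deg hk hl
  obtain ⟨h6, h7, h8⟩ := h.card hk hl
  have h9 := hs.euler
  exact ⟨h1, by omega⟩

end Pool.Agent.H32.S2
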