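import Pool.Agent.H32.S2.Defs

/-!
# Cutting along an induced 4-circuit: links

The piece is `A ∪ {a, b, c, d}` with a cone vertex `k ∈ B` adjacent to `a, b, c, d`.
-/

set_option autoImplicit false
set_option linter.unusedSectionVars false

open Finset

namespace Pool.Agent.H32.S2

open Pool.Agent.H73.GC (lk lk2 merge NoSq)
open Pool.Agent.H67.FS

variable {V : Type} [DecidableEq V] [Fintype V]

theorem Cut.k_notMem {G : SimpleGraph V} {U : Finset V} {a b c d k : V} {A B : Finset V}
    (h : Cut G U a b c d A B) (hk : k ∈ B) : k ∉ A ∧ k ∉ ({a, b, c, d} : Finset V) := by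
  refine ⟨fun h1 => h.disj k h1 hk, fun h1 => ?_⟩
  simp only [mem_insert, mem_singleton] at h1
  rcases h1 with rfl | rfl | rfl | rfl
  · exact h.nB.1 hk
  · exact h.nB.2.1 hk
  · exact h.nB.2.2.1 hk
  · exact h.nB.2.2.2 hk

theorem Cut.side_notMem {G : SimpleGraph V} {U : Finset V} {a b c d v : V} {A B : Finset V}
    (h : Cut G U a b c d A B) (hv : v ∈ A) : v ∉ ({a, b, c, d} : Finset V) :=
  (h.swap.k_notMem hv).2

/-- the link of a vertex of the side `A` does not change -/
theorem Cut.lk_side {G : SimpleGraph V} {U : Finset V} {a b c d k : V} {A B : Finset V}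
    (h : Cut G U a b c d A B) (hk : k ∈ B) {v : V} (hv : v ∈ A) :
    lk (coneG G {a, b, c, d} k) (insert k (A ∪ {a, b, c, d})) v = lk G U v := by
  have hvk : v ≠ k := fun h1 => h.disj v hv (h1 ▸ hk)
  have hk' := h.k_notMem hk
  have hv' := h.side_notMem hv
  ext w
  rw [mem_lk, mem_lk, mem_insert, mem_union]
  constructor
  · rintro ⟨rfl | h1, h2⟩
    · exact absurd ((coneG_adj_k hk'.2).1 h2.symm) hv'
    · have hwk : w ≠ k := by
        rintro rfl
        exact h1.elim hk'.1 hk'.2
      refine ⟨?_, (coneG_adj hvk hwk).1 h2⟩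
      rw [h.union]
      simp only [mem_insert, mem_singleton] at h1
      tauto
  · rintro ⟨h1, h2⟩
    have h3 : w ∈ A ∨ w ∈ ({a, b, c, d} : Finset V) := by
      rw [h.union] at h1
      simp only [mem_insert, mem_singleton]
      rcases h1 with h1 | h1 | h1
      · exact Or.inl h1
      · exact absurd h2 (h.no v hv w h1)
      · exact Or.inr h1
    have hwk : w ≠ k := by
      rintro rfl
      exact h3.elim hk'.1 hk'.2
    exact ⟨Or.inr h3, (coneG_adj hvk hwk).2 h2⟩

theorem Cut.lk_cone {G : SimpleGraph V} {U : Finset V} {a b c d k : V} {A B : Finset V}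
    (h : Cut G U a b c d A B) (hk : k ∈ B) :
    lk (coneG G {a, b, c, d} k) (insert k (A ∪ {a, b, c, d})) k = {a, b, c, d} := by
  have hk' := h.k_notMem hk
  ext w
  rw [mem_lk, coneG_adj_k hk'.2]
  exact ⟨fun h1 => h1.2, fun h1 => ⟨mem_insert_of_mem (mem_union_right _ h1), h1⟩⟩

/-- the link of the vertex `a` of the circuit -/
theorem Cut.lk_corner {G : SimpleGraph V} {U : Finset V} {a b c d k : V} {A B : Finset V}
    (h : Cut G U a b c d A B) (hk : k ∈ B) :
    lk (coneG G {a, b, c, d} k) (insert k (A ∪ {a, b, c, d})) a =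
      insert k (insert b (insert d (lk G A a))) := by
  have hk' := h.k_notMem hk
  have hak : a ≠ k := by
    rintro rfl
    exact h.nB.1 hk
  ext w
  have e1 : w ∈ insert k (insert b (insert d (lk G A a))) ↔
      w = k ∨ w = b ∨ w = d ∨ (w ∈ A ∧ G.Adj a w) := by
    rw [mem_insert, mem_insert, mem_insert, mem_lk]
  rw [e1, mem_lk, mem_insert, mem_union]
  by_cases hw : w = k
  · subst hw
    have h1 : (coneG G {a, b, c, d} w).Adj a w := ((coneG_adj_k hk'.2).2 (by simp)).symm
    simp [h1]
  · rw [coneG_adj hak hw]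
    simp only [hw, false_or]
    constructor
    · rintro ⟨h1 | h1, h2⟩
      · exact Or.inr (Or.inr ⟨h1, h2⟩)
      · simp only [mem_insert, mem_singleton] at h1
        rcases h1 with rfl | rfl | rfl | rfl
        · exact absurd rfl h2.ne
        · exact Or.inl rfl
        · exact absurd h2 h.sq.ac
        · exact Or.inr (Or.inl rfl)
    · rintro (rfl | rfl | ⟨h1, h2⟩)
      · exact ⟨Or.inr (by simp), h.sq.ab⟩
      · exact ⟨Or.inr (by simp), h.sq.da.symm⟩
      · exact ⟨Or.inl h1, h2⟩

/-- an induced 4-circuit is a circuit -/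
theorem Sq.cyc {G : SimpleGraph V} {U : Finset V} {a b c d : V} (h : Sq G U a b c d) :
    Cyc G {a, b, c, d} := by
  have key : ∀ {a b c d : V}, Sq G U a b c d → lk G {a, b, c, d} a = {b, d} := by
    intro a b c d h
    ext w
    rw [mem_lk]
    simp only [mem_insert, mem_singleton]
    constructor
    · rintro ⟨rfl | rfl | rfl | rfl, h2⟩
      · exact absurd rfl h2.ne
      · exact Or.inl rfl
      · exact absurd h2 h.ac
      · exact Or.inr rfl
    · rintro (rfl | rfl)
      · exact ⟨Or.inr (Or.inl rfl), h.ab⟩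
      · exact ⟨Or.inr (Or.inr (Or.inr rfl)), h.da.symm⟩
  have ka := key h
  have kb := key h.rot
  have kc := key h.rot.rot
  have kd := key h.rot.rot.rot
  rw [rot_set] at kb
  rw [rot_set, rot_set] at kc
  rw [rot_set, rot_set, rot_set] at kd
  refine ⟨⟨⟨a, by simp⟩, fun P hP hne hcl => ?_⟩, ?_, ?_⟩
  · have hab : a ∈ P → b ∈ P := fun h1 => hcl a h1 b (by simp) h.ab
    have hbc : b ∈ P → c ∈ P := fun h1 => hcl b h1 c (by simp) h.bc
    have hcd : c ∈ P → d ∈ P := fun h1 => hcl c h1 d (by simp) h.cd
    have hda : d ∈ P → a ∈ P := fun h1 => hcl d h1 a (by simp) h.da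
    obtain ⟨p, hp⟩ := hne
    have h1 := hP hp
    simp only [mem_insert, mem_singleton] at h1
    refine subset_antisymm hP fun x hx => ?_
    simp only [mem_insert, mem_singleton] at hx
    rcases h1 with rfl | rfl | rfl | rfl <;> rcases hx with rfl | rfl | rfl | rfl <;> tauto
  · intro v hv
    simp only [mem_insert, mem_singleton] at hv
    rcases hv with rfl | rfl | rfl | rfl
    · rw [ka, card_pair h.nbd]
    · rw [kb, card_pair h.nac.symm]
    · rw [kc, card_pair h.nbd.symm]
    · rw [kd, card_pair h.nac]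
  · have h1 : a ∉ ({b, c, d} : Finset V) := by
      simp only [mem_insert, mem_singleton]
      rintro (h1 | h1 | h1)
      · exact h.ab.ne h1
      · exact h.nac h1
      · exact h.da.ne h1.symm
    have h2 : b ∉ ({c, d} : Finset V) := by
      simp only [mem_insert, mem_singleton]
      rintro (h1 | h1)
      · exact h.bc.ne h1
      · exact h.nbd h1
    rw [card_insert_of_notMem h1, card_insert_of_notMem h2, card_pair h.cd.ne]

end Pool.Agent.H32.S2
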