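import Pool.Agent.H67.FS.Defs

/-!
# Flag 2-spheres: induced circuits of length four

`Con`, `Cyc`, `Surf`, `FS` are in `H67/FS/Defs`.
-/

set_option autoImplicit false
set_option linter.unusedSectionVars false

open Finset

namespace Pool.Agent.H32.S2

open Pool.Agent.H73.GC (lk lk2 merge NoSq)
open Pool.Agent.H67.FS

variable {V : Type} [DecidableEq V] [Fintype V]

/-- `a, b, c, d` is an induced circuit of length four -/
structure Sq (G : SimpleGraph V) (U : Finset V) (a b c d : V) : Prop where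
  ha : a ∈ U
  hb : b ∈ U
  hc : c ∈ U
  hd : d ∈ U
  ab : G.Adj a b
  bc : G.Adj b c
  cd : G.Adj c d
  da : G.Adj d a
  ac : ¬ G.Adj a c
  bd : ¬ G.Adj b d
  nac : a ≠ c
  nbd : b ≠ d

/-- `A` and `B` are the open sides of the induced circuit `a, b, c, d` -/
structure Cut (G : SimpleGraph V) (U : Finset V) (a b c d : V) (A B : Finset V) : Prop where
  sq : Sq G U a b c d
  union : ∀ v, v ∈ U ↔ v ∈ A ∨ v ∈ B ∨ v = a ∨ v = b ∨ v = c ∨ v = d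
  disj : ∀ v ∈ A, v ∉ B
  nA : a ∉ A ∧ b ∉ A ∧ c ∉ A ∧ d ∉ A
  nB : a ∉ B ∧ b ∉ B ∧ c ∉ B ∧ d ∉ B
  no : ∀ v ∈ A, ∀ w ∈ B, ¬ G.Adj v w
  e1 : ∃ y ∈ A, ∃ z ∈ B, lk2 G U a b = {y, z}
  e2 : ∃ y ∈ A, ∃ z ∈ B, lk2 G U b c = {y, z}
  e3 : ∃ y ∈ A, ∃ z ∈ B, lk2 G U c d = {y, z}
  e4 : ∃ y ∈ A, ∃ z ∈ B, lk2 G U d a = {y, z}

/-- the graph in which `k` is adjacent exactly to the vertices in `C` (other than `k`) -/
def coneG (G : SimpleGraph V) (C : Finset V) (k : V) : SimpleGraph V where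
  Adj x y := x ≠ y ∧ ((x ≠ k ∧ y ≠ k ∧ G.Adj x y) ∨ (x = k ∧ y ∈ C) ∨ (y = k ∧ x ∈ C))
  symm := ⟨by
    rintro x y ⟨h1, h2⟩
    refine ⟨h1.symm, ?_⟩
    rcases h2 with ⟨h2, h3, h4⟩ | h2 | h2
    · exact Or.inl ⟨h3, h2, h4.symm⟩
    · exact Or.inr (Or.inr h2)
    · exact Or.inr (Or.inl h2)⟩
  loopless := ⟨fun x h => h.1 rfl⟩

theorem coneG_adj {G : SimpleGraph V} {C : Finset V} {k x y : V} (hx : x ≠ k) (hy : y ≠ k) :
    (coneG G C k).Adj x y ↔ G.Adj x y := by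
  constructor
  · rintro ⟨_, ⟨_, _, h⟩ | h | h⟩
    · exact h
    · exact absurd h.1 hx
    · exact absurd h.1 hy
  · exact fun h => ⟨h.ne, Or.inl ⟨hx, hy, h⟩⟩

theorem coneG_adj_k {G : SimpleGraph V} {C : Finset V} {k y : V} (hk : k ∉ C) :
    (coneG G C k).Adj k y ↔ y ∈ C := by
  constructor
  · rintro ⟨h0, ⟨h, _, _⟩ | h | h⟩
    · exact absurd rfl h
    · exact h.2
    · exact absurd h.1.symm h0
  · exact fun h => ⟨fun h1 => hk (h1 ▸ h), Or.inr (Or.inl ⟨rfl, h⟩)⟩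

theorem Sq.rot {G : SimpleGraph V} {U : Finset V} {a b c d : V} (h : Sq G U a b c d) :
    Sq G U b c d a :=
  ⟨h.hb, h.hc, h.hd, h.ha, h.bc, h.cd, h.da, h.ab, h.bd, fun h1 => h.ac h1.symm, h.nbd, h.nac.symm⟩

theorem Cut.rot {G : SimpleGraph V} {U : Finset V} {a b c d : V} {A B : Finset V}
    (h : Cut G U a b c d A B) : Cut G U b c d a A B :=
  ⟨h.sq.rot, fun v => by rw [h.union v]; tauto, h.disj, ⟨h.nA.2.1, h.nA.2.2.1, h.nA.2.2.2, h.nA.1⟩,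
    ⟨h.nB.2.1, h.nB.2.2.1, h.nB.2.2.2, h.nB.1⟩, h.no, h.e2, h.e3, h.e4, h.e1⟩

theorem Cut.swap {G : SimpleGraph V} {U : Finset V} {a b c d : V} {A B : Finset V}
    (h : Cut G U a b c d A B) : Cut G U a b c d B A := by
  have h5 : ∀ {p q : V}, (∃ y ∈ A, ∃ z ∈ B, lk2 G U p q = {y, z}) →
      ∃ y ∈ B, ∃ z ∈ A, lk2 G U p q = {y, z} := by
    rintro p q ⟨y, hy, z, hz, h6⟩
    exact ⟨z, hz, y, hy, by rw [h6]; ext w; simp only [mem_insert, mem_singleton]; tauto⟩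
  exact ⟨h.sq, fun v => by rw [h.union v]; tauto, fun v h1 h2 => h.disj v h2 h1, h.nB, h.nA,
    fun v h1 w h2 h3 => h.no w h2 v h1 h3.symm, h5 h.e1, h5 h.e2, h5 h.e3, h5 h.e4⟩

theorem rot_set (a b c d : V) : ({b, c, d, a} : Finset V) = {a, b, c, d} := by
  ext w
  simp only [mem_insert, mem_singleton]
  tauto

end Pool.Agent.H32.S2
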