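import Pool.Agent.H32.S2.CutL
import Pool.Agent.H67.FS.Side

/-!
# Flag 2-spheres: the three cases
-/

set_option autoImplicit false
set_option linter.unusedSectionVars false

open Finset

namespace Pool.Agent.H32.S2

open Pool.Agent.H73.GC (lk lk2 merge NoSq)
open Pool.Agent.H67.FS

variable {V : Type} [DecidableEq V] [Fintype V]

/-- the two neighbours of a vertex of a circuit -/
theorem Cyc.lk_eq {G : SimpleGraph V} {L : Finset V} (h : Cyc G L) {p q r : V} (hp : p ∈ L)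
    (hq : q ∈ L) (hr : r ∈ L) (h1 : G.Adj p q) (h2 : G.Adj p r) (h3 : q ≠ r) :
    lk G L p = {q, r} := by
  refine (eq_of_subset_of_card_le ?_ ?_).symm
  · intro t ht
    rw [mem_insert, mem_singleton] at ht
    rcases ht with rfl | rfl
    · exact mem_lk.2 ⟨hq, h1⟩
    · exact mem_lk.2 ⟨hr, h2⟩
  · rw [h.two p hp, card_pair h3]

/-- a circuit which contains a 4-circuit is equal to it -/
theorem Cyc.eq_four {G : SimpleGraph V} {L : Finset V} (h : Cyc G L) {a b c d : V} (ha : a ∈ L)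
    (hb : b ∈ L) (hc : c ∈ L) (hd : d ∈ L) (hac : a ≠ c) (hbd : b ≠ d) (h1 : G.Adj a b)
    (h2 : G.Adj b c) (h3 : G.Adj c d) (h4 : G.Adj d a) : L = {a, b, c, d} := by
  refine (h.con.2 {a, b, c, d} ?_ ⟨a, by simp⟩ ?_).symm
  · intro x hx
    simp only [mem_insert, mem_singleton] at hx
    rcases hx with rfl | rfl | rfl | rfl <;> assumption
  · intro x hx y hy hxy
    have hy' : y ∈ lk G L x := mem_lk.2 ⟨hy, hxy⟩
    simp only [mem_insert, mem_singleton] at hx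
    rcases hx with rfl | rfl | rfl | rfl
    · rw [Cyc.lk_eq h ha hb hd h1 h4.symm hbd] at hy'
      simp only [mem_insert, mem_singleton] at hy' ⊢
      tauto
    · rw [Cyc.lk_eq h hb ha hc h1.symm h2 hac] at hy'
      simp only [mem_insert, mem_singleton] at hy' ⊢
      tauto
    · rw [Cyc.lk_eq h hc hb hd h2.symm h3 hbd] at hy'
      simp only [mem_insert, mem_singleton] at hy' ⊢
      tauto
    · rw [Cyc.lk_eq h hd ha hc h4 h3.symm hac] at hy'
      simp only [mem_insert, mem_singleton] at hy' ⊢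
      tauto

/-- if one side has only one vertex, then it is adjacent exactly to `a, b, c, d` -/
theorem Cut.single {G : SimpleGraph V} {U : Finset V} {a b c d v : V} {B : Finset V}
    (h : Cut G U a b c d {v} B) : lk G U v = {a, b, c, d} := by
  have key : ∀ {p q : V}, (∃ y ∈ ({v} : Finset V), ∃ z ∈ B, lk2 G U p q = {y, z}) →
      G.Adj v p ∧ G.Adj v q := by
    rintro p q ⟨y, hy, z, hz, h6⟩
    rw [mem_singleton] at hy
    subst hy
    have h7 : y ∈ lk2 G U p q := by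
      rw [h6]
      simp
    rw [mem_lk2] at h7
    exact ⟨h7.2.1.symm, h7.2.2.symm⟩
  have h1 := key h.e1
  have h3 := key h.e3
  have hv : v ∈ ({v} : Finset V) := mem_singleton_self v
  ext w
  rw [mem_lk]
  simp only [mem_insert, mem_singleton]
  constructor
  · rintro ⟨h4, h5⟩
    rw [h.union, mem_singleton] at h4
    rcases h4 with rfl | h4 | h4
    · exact absurd rfl h5.ne
    · exact absurd h5 (h.no v hv w h4)
    · exact h4
  · rintro (rfl | rfl | rfl | rfl)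
    · exact ⟨h.sq.ha, h1.1⟩
    · exact ⟨h.sq.hb, h1.2⟩
    · exact ⟨h.sq.hc, h3.1⟩
    · exact ⟨h.sq.hd, h3.2⟩

/-- an edge for which `NoSq` fails is in an induced 4-circuit -/
theorem sq_of_not {G : SimpleGraph V} {U : Finset V} {x u : V} (hx : x ∈ U) (hu : u ∈ U)
    (h : G.Adj x u) (hN : ¬ NoSq G U x u) : ∃ p q, Sq G U x u p q := by
  unfold NoSq at hN
  push Not at hN
  obtain ⟨p, hp, q, hq, h1, h2, h3, h4, h5, h6, h7⟩ := hN
  exact ⟨p, q, hx, hu, hp, hq, h, h3, h5, h4.symm, h6, h7, h1.symm, h2.symm⟩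

/-- an induced 4-circuit has a side with one vertex -/
theorem Cut.exists_single {G : SimpleGraph V} {U : Finset V} {a b c d : V} {A B : Finset V}
    (h : Cut G U a b c d A B) (hc : ¬ (2 ≤ A.card ∧ 2 ≤ B.card)) :
    ∃ v D, Cut G U a b c d {v} D := by
  have hA : 0 < A.card := by
    obtain ⟨y, hy, _⟩ := h.e1
    exact card_pos.2 ⟨y, hy⟩
  have hB : 0 < B.card := by
    obtain ⟨y, hy, z, hz, _⟩ := h.e1
    exact card_pos.2 ⟨z, hz⟩
  rcases Nat.lt_or_ge A.card 2 with h1 | h1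
  · obtain ⟨v, rfl⟩ := card_eq_one.1 (show A.card = 1 by omega)
    exact ⟨v, B, h⟩
  · have h2 : B.card = 1 := by
      by_contra h3
      exact hc ⟨h1, by omega⟩
    obtain ⟨v, rfl⟩ := card_eq_one.1 h2
    exact ⟨v, A, h.swap⟩

/-- the last step -/
theorem octa {G : SimpleGraph V} {U : Finset V} (h : FS G U)
    (hE : ∀ x ∈ U, ∀ u ∈ U, G.Adj x u → ¬ NoSq G U x u) {v a b c d x : V} (hvU : v ∈ U)
    (hq : Sq G U a b c d) (hv : lk G U v = {a, b, c, d}) (hx : x ∈ U) (hxv : ¬ G.Adj v x)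
    (hxv' : v ≠ x) (hxa : G.Adj a x) (hxc : G.Adj x c) (hb : lk G U b = {v, a, x, c}) :
    ∀ w ∈ U, w ≠ v → w ≠ x → G.Adj v w ∧ G.Adj x w := by
  have adj : ∀ {p q : V}, q ∈ lk G U p → G.Adj p q := fun h1 => (mem_lk.1 h1).2
  have hva : G.Adj v a := adj (by rw [hv]; simp)
  have hvb : G.Adj v b := adj (by rw [hv]; simp)
  have hvc : G.Adj v c := adj (by rw [hv]; simp)
  have hvd : G.Adj v d := adj (by rw [hv]; simp)
  have hbx : G.Adj b x := adj (by rw [hb]; simp)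
  obtain ⟨p, q, h1⟩ := sq_of_not hvU hq.hb hvb (hE v hvU b hq.hb hvb)
  have hp : p = x := by
    have h2 : p ∈ lk G U b := mem_lk.2 ⟨h1.hc, h1.bc⟩
    rw [hb] at h2
    simp only [mem_insert, mem_singleton] at h2
    rcases h2 with h2 | h2 | h2 | h2
    · exact absurd h2.symm h1.nac
    · exact absurd (h2 ▸ hva) h1.ac
    · exact h2
    · exact absurd (h2 ▸ hvc) h1.ac
  subst hp
  have hq' : q = d := by
    have h2 : q ∈ lk G U v := mem_lk.2 ⟨h1.hd, h1.da.symm⟩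
    rw [hv] at h2
    simp only [mem_insert, mem_singleton] at h2
    rcases h2 with h2 | h2 | h2 | h2
    · exact absurd (h2 ▸ hq.ab.symm) h1.bd
    · exact absurd h2.symm h1.nbd
    · exact absurd (h2 ▸ hq.bc) h1.bd
    · exact h2
  subst hq'
  have hxd : G.Adj p q := h1.cd
  have Na : lk G U a = {v, b, p, q} :=
    Cyc.eq_four (h.surf.cyc a hq.ha) (mem_lk.2 ⟨hvU, hva.symm⟩) (mem_lk.2 ⟨hq.hb, hq.ab⟩)
      (mem_lk.2 ⟨hx, hxa⟩) (mem_lk.2 ⟨hq.hd, hq.da.symm⟩) hxv' hq.nbd hvb hbx hxd hvd.symm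
  have Nc : lk G U c = {v, b, p, q} :=
    Cyc.eq_four (h.surf.cyc c hq.hc) (mem_lk.2 ⟨hvU, hvc.symm⟩) (mem_lk.2 ⟨hq.hb, hq.bc.symm⟩)
      (mem_lk.2 ⟨hx, hxc.symm⟩) (mem_lk.2 ⟨hq.hd, hq.cd⟩) hxv' hq.nbd hvb hbx hxd hvd.symm
  have Nd : lk G U q = {v, a, p, c} :=
    Cyc.eq_four (h.surf.cyc q hq.hd) (mem_lk.2 ⟨hvU, hvd.symm⟩) (mem_lk.2 ⟨hq.ha, hq.da⟩)
      (mem_lk.2 ⟨hx, hxd.symm⟩) (mem_lk.2 ⟨hq.hc, hq.cd.symm⟩) hxv' hq.nac hva hxa hxc hvc.symm
  have Nx : lk G U p = {a, b, c, q} :=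
    Cyc.eq_four (h.surf.cyc p hx) (mem_lk.2 ⟨hq.ha, hxa.symm⟩) (mem_lk.2 ⟨hq.hb, hbx.symm⟩)
      (mem_lk.2 ⟨hq.hc, hxc⟩) (mem_lk.2 ⟨hq.hd, hxd⟩) hq.nac hq.nbd hq.ab hq.bc hq.cd hq.da
  have hU : ({v, p, a, b, c, q} : Finset V) = U := by
    refine h.surf.con.2 _ ?_ ⟨v, by simp⟩ ?_
    · intro y hy
      simp only [mem_insert, mem_singleton] at hy
      rcases hy with rfl | rfl | rfl | rfl | rfl | rfl
      · exact hvU
      · exact hx
      · exact hq.ha
      · exact hq.hb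
      · exact hq.hc
      · exact hq.hd
    · intro y hy z hz hyz
      have hz' : z ∈ lk G U y := mem_lk.2 ⟨hz, hyz⟩
      simp only [mem_insert, mem_singleton] at hy
      rcases hy with rfl | rfl | rfl | rfl | rfl | rfl
      · rw [hv] at hz'
        simp only [mem_insert, mem_singleton] at hz' ⊢
        tauto
      · rw [Nx] at hz'
        simp only [mem_insert, mem_singleton] at hz' ⊢
        tauto
      · rw [Na] at hz'
        simp only [mem_insert, mem_singleton] at hz' ⊢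
        tauto
      · rw [hb] at hz'
        simp only [mem_insert, mem_singleton] at hz' ⊢
        tauto
      · rw [Nc] at hz'
        simp only [mem_insert, mem_singleton] at hz' ⊢
        tauto
      · rw [Nd] at hz'
        simp only [mem_insert, mem_singleton] at hz' ⊢
        tauto
  intro w hw h2 h3
  rw [← hU] at hw
  simp only [mem_insert, mem_singleton] at hw
  rcases hw with rfl | rfl | rfl | rfl | rfl | rfl
  · exact absurd rfl h2
  · exact absurd rfl h3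
  · exact ⟨hva, hxa.symm⟩
  · exact ⟨hvb, hbx.symm⟩
  · exact ⟨hvc, hxc⟩
  · exact ⟨hvd, hxd⟩

/-- A flag 2-sphere is the octahedron (there are two vertices which are not adjacent and adjacent to all the
others), or it has an edge which is in no induced 4-circuit, or there is an induced 4-circuit with at least two
vertices on both sides. Proof: note 3874 (5) on MP_ea75ba_gt. -/
theorem fs_cases {G : SimpleGraph V} {U : Finset V} (h : FS G U) :
    (∃ a ∈ U, ∃ b ∈ U, a ≠ b ∧ ¬ G.Adj a b ∧ ∀ w ∈ U, w ≠ a → w ≠ b → G.Adj a w ∧ G.Adj b w) ∨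
    (∃ x ∈ U, ∃ u ∈ U, G.Adj x u ∧ NoSq G U x u) ∨
    (∃ a b c d A B, Cut G U a b c d A B ∧ 2 ≤ A.card ∧ 2 ≤ B.card) := by
  by_cases h1 : ∃ x ∈ U, ∃ u ∈ U, G.Adj x u ∧ NoSq G U x u
  · exact Or.inr (Or.inl h1)
  by_cases h2 : ∃ a b c d A B, Cut G U a b c d A B ∧ 2 ≤ A.card ∧ 2 ≤ B.card
  · exact Or.inr (Or.inr h2)
  left
  have hE : ∀ x ∈ U, ∀ u ∈ U, G.Adj x u → ¬ NoSq G U x u :=
    fun x hx u hu h3 h4 => h1 ⟨x, hx, u, hu, h3, h4⟩
  have hS : ∀ {a b c d : V}, Sq G U a b c d → ∃ v D, Cut G U a b c d {v} D := by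
    intro a b c d hq
    obtain ⟨A, B, hAB⟩ := exists_cut h hq
    exact hAB.exists_single fun h3 => h2 ⟨a, b, c, d, A, B, hAB, h3.1, h3.2⟩
  obtain ⟨x₀, hx₀⟩ := h.surf.con.1
  obtain ⟨u₀, hu₀⟩ := (h.surf.cyc x₀ hx₀).con.1
  rw [mem_lk] at hu₀
  obtain ⟨p, q, hq₀⟩ := sq_of_not hx₀ hu₀.1 hu₀.2 (hE x₀ hx₀ u₀ hu₀.1 hu₀.2)
  obtain ⟨v, D, hcut⟩ := hS hq₀
  revert hcut hq₀
  generalize x₀ = a
  generalize u₀ = b
  generalize p = c
  generalize q = d
  intro hq hcut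
  have hv := hcut.single
  have hvU : v ∈ U := (hcut.union v).2 (Or.inl (mem_singleton_self v))
  have hva : G.Adj v a := (mem_lk.1 (show a ∈ lk G U v by rw [hv]; simp)).2
  obtain ⟨x, c', h3⟩ := sq_of_not hvU hq.ha hva (hE v hvU a hq.ha hva)
  have hc' : c' = c := by
    have h4 : c' ∈ lk G U v := mem_lk.2 ⟨h3.hd, h3.da.symm⟩
    rw [hv] at h4
    simp only [mem_insert, mem_singleton] at h4
    rcases h4 with h4 | h4 | h4 | h4
    · exact absurd h4.symm h3.nbd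
    · exact absurd (h4 ▸ hq.ab) h3.bd
    · exact h4
    · exact absurd (h4 ▸ hq.da.symm) h3.bd
  subst hc'
  obtain ⟨y, E, hcut'⟩ := hS h3
  have hy := hcut'.single
  have hy2 : y ∈ lk2 G U v a := by
    obtain ⟨y', hy', z, hz, h4⟩ := hcut'.e1
    rw [mem_singleton] at hy'
    subst hy'
    rw [h4]
    simp
  rw [mem_lk2] at hy2
  have hy3 : y ∈ lk G U v := mem_lk.2 ⟨hy2.1, hy2.2.1⟩
  rw [hv] at hy3
  simp only [mem_insert, mem_singleton] at hy3
  refine ⟨v, hvU, x, h3.hc, h3.nac, h3.ac, ?_⟩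
  rcases hy3 with rfl | rfl | rfl | rfl
  · exact absurd rfl hy2.2.2.ne
  · exact octa h hE hvU hq hv h3.hc h3.ac h3.nac h3.bc h3.cd hy
  · exact absurd hy2.2.2 hq.ac
  · refine octa (d := b) h hE hvU ?_ ?_ h3.hc h3.ac h3.nac h3.bc h3.cd hy
    · exact ⟨hq.ha, hq.hd, hq.hc, hq.hb, hq.da.symm, hq.cd.symm, hq.bc.symm, hq.ab.symm, hq.ac,
        fun h4 => hq.bd h4.symm, hq.nac, hq.nbd.symm⟩
    · rw [hv]
      ext w
      simp only [mem_insert, mem_singleton]
      tauto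

end Pool.Agent.H32.S2
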