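import Pool.Agent.H32.S2.Exist
import Pool.Agent.H32.S2.Contr
import Pool.Agent.H32.S2.CutE

/-!
# Flag 2-spheres: induction
-/

set_option autoImplicit false
set_option linter.unusedSectionVars false

open Finset

namespace Pool.Agent.H32.S2

open Pool.Agent.H73.GC (lk lk2 merge NoSq)
open Pool.Agent.H67.FS

variable {V : Type} [DecidableEq V] [Fintype V]

/-- Induction for flag 2-spheres: suspensions, contraction of an edge, gluing along an induced 4-circuit. -/
theorem fs_ind {P : SimpleGraph V → Finset V → Prop}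
    (susp : ∀ G U a b, a ∈ U → b ∈ U → a ≠ b → ¬ G.Adj a b →
      (∀ w ∈ U, w ≠ a → w ≠ b → G.Adj a w ∧ G.Adj b w) → P G U)
    (contr : ∀ G U x u z w, FS G U → x ∈ U → u ∈ U → G.Adj x u → NoSq G U x u → z ∈ U → w ∈ U →
      z ≠ w → ¬ G.Adj z w → lk2 G U x u = {z, w} → FS (merge G x u) (U.erase x) →
      P (merge G x u) (U.erase x) → P G U)
    (glue : ∀ G G₁ G₂ A B k l, FS G (A ∪ B) → k ∉ A → l ∉ B →
      (∀ a ∈ A, a ∉ B → ∀ b ∈ B, b ∉ A → ¬ G.Adj a b) →
      (∀ a ∈ A, ∀ b ∈ A, G₁.Adj a b ↔ G.Adj a b) → (∀ a ∈ A, G₁.Adj k a ↔ a ∈ B) →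
      (∀ a ∈ B, ∀ b ∈ B, G₂.Adj a b ↔ G.Adj a b) → (∀ a ∈ B, G₂.Adj l a ↔ a ∈ A) →
      FS G₁ (insert k A) → FS G₂ (insert l B) → P G₁ (insert k A) → P G₂ (insert l B) →
      P G (A ∪ B))
    {G : SimpleGraph V} {U : Finset V} (h : FS G U) : P G U := by
  induction hn : U.card using Nat.strong_induction_on generalizing G U with
  | _ n ih =>
    subst hn
    rcases fs_cases h with ⟨a, ha, b, hb, h1, h2, h3⟩ | ⟨x, hx, u, hu, h1, h2⟩ |
      ⟨a, b, c, d, A, B, h1, h2, h3⟩
    · exact susp G U a b ha hb h1 h2 h3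
    · obtain ⟨z, w, h4, h5, h6⟩ := h.surf.pair hx hu h1
      have h7 : z ∈ lk2 G U x u := by
        rw [h5]
        simp
      have h8 : w ∈ lk2 G U x u := by
        rw [h5]
        simp
      have h9 := fs_merge h hx hu h1 h2
      exact contr G U x u z w h hx hu h1 h2 (mem_lk2.1 h7).1 (mem_lk2.1 h8).1 h4 h6 h5 h9
        (ih _ (card_lt_card (erase_ssubset hx)) h9 rfl)
    · obtain ⟨l, hl⟩ : A.Nonempty := card_pos.1 (by omega)
      obtain ⟨k, hk⟩ : B.Nonempty := card_pos.1 (by omega)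
      have e1 := h1.fs h hk hl
      have e2 := h1.swap.fs h hl hk
      obtain ⟨c1, c2, c3⟩ := h1.card hk hl
      have p1 := ih _ (by omega) e1 rfl
      have p2 := ih _ (by omega) e2 rfl
      have hk' := h1.k_notMem hk
      have hl' := h1.swap.k_notMem hl
      have hU : (A ∪ {a, b, c, d}) ∪ (B ∪ {a, b, c, d}) = U := by
        ext v
        rw [h1.union v, mem_union, mem_union, mem_union]
        simp only [mem_insert, mem_singleton]
        tauto
      have key : ∀ {A B : Finset V} {k : V}, Cut G U a b c d A B → k ∈ B →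
          (∀ x ∈ A ∪ {a, b, c, d}, ∀ y ∈ A ∪ {a, b, c, d},
            (coneG G {a, b, c, d} k).Adj x y ↔ G.Adj x y) ∧
          (∀ x ∈ A ∪ {a, b, c, d}, (coneG G {a, b, c, d} k).Adj k x ↔ x ∈ B ∪ {a, b, c, d}) ∧
          k ∉ A ∪ {a, b, c, d} := by
        intro A B k h hk
        have hk' := h.k_notMem hk
        have hk2 : k ∉ A ∪ ({a, b, c, d} : Finset V) := by
          rw [mem_union]
          exact fun h1 => h1.elim hk'.1 hk'.2
        refine ⟨fun x hx y hy => coneG_adj (fun h1 => hk2 (h1 ▸ hx)) (fun h1 => hk2 (h1 ▸ hy)),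
          fun x hx => ?_, hk2⟩
        rw [coneG_adj_k hk'.2, mem_union]
        rcases mem_union.1 hx with hx | hx
        · have h3 := h.disj x hx
          have h4 := h.side_notMem hx
          exact ⟨fun h5 => absurd h5 h4, fun h5 => h5.elim (fun h6 => absurd h6 h3) id⟩
        · exact ⟨fun _ => Or.inr hx, fun _ => hx⟩
      obtain ⟨k1, k2, k3⟩ := key h1 hk
      obtain ⟨l1, l2, l3⟩ := key h1.swap hl
      have := glue G (coneG G {a, b, c, d} k) (coneG G {a, b, c, d} l) (A ∪ {a, b, c, d})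
        (B ∪ {a, b, c, d}) k l (by rw [hU]; exact h) k3 l3 ?_ k1 k2 l1 l2 e1 e2 p1 p2
      · rwa [hU] at this
      · intro x hx hx' y hy hy'
        have hxA : x ∈ A := by
          rcases mem_union.1 hx with h4 | h4
          · exact h4
          · exact absurd (mem_union_right _ h4) hx'
        have hyB : y ∈ B := by
          rcases mem_union.1 hy with h4 | h4
          · exact h4
          · exact absurd (mem_union_right _ h4) hy'
        exact h1.no x hxA y hyB

end Pool.Agent.H32.S2
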